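import Pool.Agent.helper99.ZQ.SetP

/-!
# MP_3c0a64_an: projections in the directions of the Cantor set

`MeasureTheory.Measure.mkMetric m` is the Hausdorff measure of the gauge function `m` (of the
diameter), `dimH` the Hausdorff dimension; `ℝ × ℝ` has the maximum metric.
-/

namespace Pool.Agent.Results.MP_3c0a64_an.CantorDirections

open MeasureTheory

/-- the Cantor measure: the law of `∑ 2 b_i / 3^(i+1)`, where the `b_i` are independent fair coins -/
noncomputable def cantorMeasure : Measure ℝ :=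
  (Measure.infinitePi fun _ : ℕ => (PMF.uniformOfFintype Bool).toMeasure).map
    fun b => Real.ofDigits fun i => cond (b i) (2 : Fin 3) 0

/-- the gauge `t exp (-C (log log (1/t))^3)` -/
noncomputable def gauge (C : ℝ) (t : ENNReal) : ENNReal :=
  ENNReal.ofReal (t.toReal * Real.exp (-(C * (Real.log (Real.log (1 / t.toReal))) ^ 3)))

theorem result :
    -- sets of dimension greater than one have projections of positive length
    (∃ C : ℝ, 0 < C ∧ ∀ E : Set (ℝ × ℝ), IsSigmaCompact E → (∀ p ∈ E, 0 < p.2) →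
      (1 < dimH E ∨ Measure.mkMetric (gauge C) E ≠ 0) →
      ∀ᵐ c ∂cantorMeasure, volume ((fun p : ℝ × ℝ => p.1 + p.2 * (c - 1 / 2)) '' E) ≠ 0) ∧
    -- measures of dimension greater than one have absolutely continuous projections
    (∀ ν : Measure (ℝ × ℝ), IsFiniteMeasure ν → ∀ s A : ℝ, 1 < s →
      (∀ (z : ℝ × ℝ) (ρ : ℝ), 0 < ρ → ν (Metric.closedBall z ρ) ≤ ENNReal.ofReal (A * ρ ^ s)) →
      ∀ᵐ c ∂cantorMeasure, (ν.map fun p : ℝ × ℝ => p.1 + c * p.2) ≪ volume) := by
  have hC : (0 : ℝ) < 2 * 10 ^ 14 := by norm_num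
  obtain ⟨-, hD2⟩ := Pool.Agent.ZP.DIM (2 * 10 ^ 14) hC
  refine ⟨⟨2 * 10 ^ 14, hC, fun E hE hpos h => ?_⟩,
    fun ν hν s A hs h => Pool.Agent.ZQ.fACF ν hν s A hs h⟩
  refine Pool.Agent.ZQ.SET_sigma E hE hpos ?_
  rcases h with h | h
  · intro h0
    exact absurd (hD2 _ h0) (not_le.mpr h)
  · exact h

end Pool.Agent.Results.MP_3c0a64_an.CantorDirections
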