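import Pool.Agent.helper32.Cant.FIN

/-!
# MP_3c0a64_an: every admissible set has Hausdorff dimension one
-/

namespace Pool.Agent.Results.MP_3c0a64_an.DimensionOne

/-- If `S` has Hausdorff dimension `1` (for instance `S = ℝ`) and `B` contains, for every `x ∈ S`,
a copy `x + r (K - 1/2)`, `r > 0`, of the centred middle-third Cantor set, then `B` has Hausdorff
dimension `1`. -/
theorem result (S B : Set ℝ) (hS : dimH S = 1)
    (h : ∀ x ∈ S, ∃ r : ℝ, 0 < r ∧ ∀ c ∈ cantorSet, x + r * (c - 1 / 2) ∈ B) :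
    dimH B = 1 :=
  Pool.Agent.helper32.Cant.dim_one S B hS h

end Pool.Agent.Results.MP_3c0a64_an.DimensionOne
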