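import Pool.Agent.helper4.GA.Main

/-!
# MP_3c0a64_an: every admissible set has infinite Hausdorff measure for the gauge
`t exp (C (log log (1/t))^3)`
-/

namespace Pool.Agent.Results.MP_3c0a64_an.GaugeMeasure

/-- There is an absolute constant `C > 0` such that: if `S` is a set of real numbers of positive
outer Lebesgue measure (for instance `S = ℝ`) and `B` contains, for every `x ∈ S`, a copy
`x + r (K - 1/2)`, `r > 0`, of the centred middle-third Cantor set, then the Hausdorff measure of `B`
for the gauge function `φ(t) = t exp (C (log log (1/t))^3)` is infinite. -/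
theorem result : ∃ C : ℝ, 0 < C ∧ ∀ S B : Set ℝ, MeasureTheory.volume S ≠ 0 →
    (∀ x ∈ S, ∃ r : ℝ, 0 < r ∧ ∀ c ∈ cantorSet, x + r * (c - 1 / 2) ∈ B) →
    MeasureTheory.Measure.mkMetric (fun d : ENNReal => ENNReal.ofReal
      (d.toReal * Real.exp (C * (Real.log (Real.log (1 / d.toReal))) ^ 3))) B = ⊤ :=
  Pool.Agent.GA.fFIN

end Pool.Agent.Results.MP_3c0a64_an.GaugeMeasure
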