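import Pool.Agent.helper99.ZQ.Main

/-!
# MP_3c0a64_an: the copies of the Cantor set in a null set

`K` is the middle-third Cantor set (`cantorSet`). `MeasureTheory.Measure.mkMetric m` is the Hausdorff
measure of the gauge function `m` (of the diameter), `dimH` the Hausdorff dimension.
-/

namespace Pool.Agent.Results.MP_3c0a64_an.PairsDimension

open MeasureTheory

/-- the Cantor measure: the law of `∑ 2 b_i / 3^(i+1)`, where the `b_i` are independent fair coins -/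
noncomputable def cantorMeasure : Measure ℝ :=
  (Measure.infinitePi fun _ : ℕ => (PMF.uniformOfFintype Bool).toMeasure).map
    fun b => Real.ofDigits fun i => cond (b i) (2 : Fin 3) 0

/-- the gauge `exp (-C (log log (1/t))^3)` -/
noncomputable def gauge0 (C : ℝ) (t : ENNReal) : ENNReal :=
  ENNReal.ofReal (Real.exp (-(C * (Real.log (Real.log (1 / t.toReal))) ^ 3)))

/-- the gauge `t exp (-C (log log (1/t))^3)` -/
noncomputable def gauge1 (C : ℝ) (t : ENNReal) : ENNReal :=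
  ENNReal.ofReal (t.toReal * Real.exp (-(C * (Real.log (Real.log (1 / t.toReal))) ^ 3)))

/-- The set of the pairs `(x, r)`, `r > 0`, for which the centred copy `x + r (K - 1/2)` of the
Cantor set meets `B` in a set of positive (outer) Cantor measure. -/
def pairs (B : Set ℝ) : Set (ℝ × ℝ) :=
  {p | 0 < p.2 ∧ cantorMeasure {c | p.1 + p.2 * (c - 1 / 2) ∈ B} ≠ 0}

theorem result :
    -- every pair with `x + r (K - 1/2) ⊆ B` is in `pairs B`
    (∀ (B : Set ℝ) (x r : ℝ), 0 < r → (∀ c ∈ cantorSet, x + r * (c - 1 / 2) ∈ B) →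
      (x, r) ∈ pairs B) ∧
    -- the pairs of a null set have dimension at most one, almost every fibre has dimension zero
    (∃ C : ℝ, 0 < C ∧ ∀ B : Set ℝ, volume B = 0 →
      Measure.mkMetric (gauge1 C) (pairs B) = 0 ∧ dimH (pairs B) ≤ 1 ∧
      ∀ᵐ x : ℝ, Measure.mkMetric (gauge0 C) {r | (x, r) ∈ pairs B} = 0 ∧
        dimH {r | (x, r) ∈ pairs B} = 0) ∧
    -- this is optimal
    (∃ B : Set ℝ, volume B = 0 ∧
      dimH {p : ℝ × ℝ | 0 < p.2 ∧ ∀ c ∈ cantorSet, p.1 + p.2 * (c - 1 / 2) ∈ B} = 1) := by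
  have hC : (0 : ℝ) < 2 * 10 ^ 14 := by norm_num
  obtain ⟨hD1, hD2⟩ := Pool.Agent.ZP.DIM (2 * 10 ^ 14) hC
  obtain ⟨-, -, -, -, -, -, hK⟩ := Pool.Agent.ZQ.COI
  have hsub : ∀ (B : Set ℝ) (x r : ℝ), 0 < r → (∀ c ∈ cantorSet, x + r * (c - 1 / 2) ∈ B) →
      (x, r) ∈ pairs B := by
    intro B x r hr h
    refine ⟨hr, ?_⟩
    have h1 := hK {c | x + r * (c - 1 / 2) ∈ B} h
    have h2 : cantorMeasure {c | x + r * (c - 1 / 2) ∈ B} = 1 := h1
    show cantorMeasure {c | x + r * (c - 1 / 2) ∈ B} ≠ 0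
    rw [h2]
    exact one_ne_zero
  have hmain : ∀ B : Set ℝ, volume B = 0 →
      Measure.mkMetric (gauge1 (2 * 10 ^ 14)) (pairs B) = 0 := by
    intro B hB
    have h1 : (Pool.Agent.ZQ.cmu.prod volume) ((Set.univ : Set ℝ) ×ˢ B) = 0 := by
      have := Pool.Agent.ZQ.COI.2.1
      rw [Measure.prod_prod, hB, mul_zero]
    have h2 := Pool.Agent.ZQ.fFI4 _ h1
    have h3 : {p : ℝ × ℝ | 0 < p.2 ∧ Pool.Agent.ZQ.cmu (Pool.Agent.ZQ.Ln ((Set.univ : Set ℝ) ×ˢ B) p.1 p.2) ≠ 0}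
        = pairs B := by
      have h4 : ∀ x r : ℝ, Pool.Agent.ZQ.Ln ((Set.univ : Set ℝ) ×ˢ B) x r = {c | x + r * (c - 1 / 2) ∈ B} := by
        intro x r
        ext c
        simp [Pool.Agent.ZQ.Ln]
      ext p
      constructor
      · intro h
        obtain ⟨h5, h6⟩ := h
        rw [h4] at h6
        exact ⟨h5, h6⟩
      · intro h
        obtain ⟨h5, h6⟩ := h
        refine ⟨h5, ?_⟩
        rw [h4]
        exact h6
    rw [h3] at h2
    exact h2
  refine ⟨hsub, ⟨2 * 10 ^ 14, hC, fun B hB => ?_⟩, ?_⟩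
  · have h1 := hmain B hB
    refine ⟨h1, hD2 _ h1, ?_⟩
    filter_upwards [Pool.Agent.ZP.FUB (2 * 10 ^ 14) _ h1] with x hx
    exact ⟨hx, hD1 _ hx⟩
  · obtain ⟨B, hB, h1⟩ := Pool.Agent.ZPO.OPC Pool.Agent.ZPO.OPA Pool.Agent.ZPO.OPB
    exact ⟨B, hB, le_antisymm (hD2 _ (Pool.Agent.ZP.fFI2 B hB)) h1⟩

end Pool.Agent.Results.MP_3c0a64_an.PairsDimension
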